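import Pool.Agent.helper37.QX.SpecG

set_option autoImplicit false

namespace Pool.Agent.QX

private theorem ALT_aux : ∀ L : List (Fin 2 × Bool), FreeGroup.IsReduced L → Alt (L.flatMap lq)
  | [], _ => by simp [Alt]
  | [(a, s)], _ => by
    rcases s with _ | _ <;> fin_cases a <;> simp [Alt, lq]
  | (a, s) :: (b, t) :: L, h => by
    have h1 := FreeGroup.isReduced_cons_cons.1 h
    have ih := ALT_aux ((b, t) :: L) h1.2
    have h2 := h1.1
    rw [List.flatMap_cons] at ih ⊢
    rw [List.flatMap_cons]
    rcases s with _ | _ <;> rcases t with _ | _ <;> fin_cases a <;> fin_cases b <;>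
      simp_all [Alt, lq]

private theorem ALT_len (L : List (Fin 2 × Bool)) : (L.flatMap lq).length = 2 * L.length := by
  induction L with
  | nil => simp
  | cons a L ih =>
    have h : (lq a).length = 2 := by
      rcases a with ⟨a, _ | _⟩ <;> simp [lq]
    rw [List.flatMap_cons, List.length_append, ih, h, List.length_cons]
    ring

theorem ALT : ALT_stmt := by
  intro w
  have hl : (ltr w).length = 2 * w.norm := ALT_len w.toWord
  refine ⟨ALT_aux w.toWord FreeGroup.isReduced_toWord, hl, ?_⟩
  rw [← List.length_eq_zero_iff, hl]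
  constructor
  · intro h
    exact FreeGroup.norm_eq_zero.1 (by omega)
  · rintro rfl
    simp

end Pool.Agent.QX
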