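import Pool.Agent.helper62.QX.SpecT

set_option autoImplicit false

open scoped Topology
open Filter Set Polynomial
open Pool.Agent.QU Pool.Agent.RP

namespace Pool.Agent.QX

/-- the matrix of an orthonormal basis of the vectors of sum zero -/
private noncomputable def SDR_B (m : ℕ) (a c : ℝ) : Matrix (Fin (m + 1)) (Fin m) ℂ :=
  fun i k => Fin.cases (motive := fun _ => ℂ) (a : ℂ) (fun j => (if j = k then 1 else 0) - (c : ℂ)) i

private theorem SDR_B0 (m : ℕ) (a c : ℝ) (k : Fin m) : SDR_B m a c 0 k = a := rfl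

private theorem SDR_Bs (m : ℕ) (a c : ℝ) (j k : Fin m) :
    SDR_B m a c j.succ k = (if j = k then 1 else 0) - (c : ℂ) := rfl

private noncomputable def SDR_P {N : ℕ} (π : Equiv.Perm (Fin N)) : Matrix (Fin N) (Fin N) ℂ :=
  fun i j => if i = π j then 1 else 0

private noncomputable def SDR_J (N : ℕ) : Matrix (Fin N) (Fin N) ℂ := fun _ _ => 1

private theorem SDR_Pmul {N : ℕ} (π ρ : Equiv.Perm (Fin N)) :
    SDR_P (π * ρ) = SDR_P π * SDR_P ρ := by
  ext i j
  rw [Matrix.mul_apply]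
  simp only [SDR_P, Equiv.Perm.coe_mul, Function.comp_apply]
  rw [Finset.sum_eq_single (ρ j)]
  · by_cases h : i = π (ρ j)
    · simp [h]
    · simp [h]
  · intro b _ hb
    rw [if_neg hb, mul_zero]
  · intro h
    exact absurd (Finset.mem_univ _) h

private theorem SDR_Pone {N : ℕ} : SDR_P (1 : Equiv.Perm (Fin N)) = 1 := by
  ext i j
  rw [Matrix.one_apply]
  rfl

private theorem SDR_Pstar {N : ℕ} (π : Equiv.Perm (Fin N)) :
    (SDR_P π).conjTranspose = SDR_P π⁻¹ := by
  ext i j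
  simp only [SDR_P, Matrix.conjTranspose_apply]
  by_cases h : j = π i
  · rw [if_pos h, if_pos (by rw [h]; simp)]
    simp
  · rw [if_neg h, if_neg (fun h2 => h (by rw [h2]; simp))]
    simp

private theorem SDR_PJ {N : ℕ} (π : Equiv.Perm (Fin N)) : SDR_P π * SDR_J N = SDR_J N := by
  ext i j
  simp only [SDR_P, SDR_J, Matrix.mul_apply, mul_one]
  rw [Finset.sum_eq_single (π⁻¹ i)]
  · simp
  · intro b _ hb
    rw [if_neg]
    intro h
    exact hb (by rw [h]; simp)
  · simp

private theorem SDR_JP {N : ℕ} (π : Equiv.Perm (Fin N)) : SDR_J N * SDR_P π = SDR_J N := by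
  ext i j
  simp [SDR_P, SDR_J, Matrix.mul_apply]

private theorem SDR_JB (m : ℕ) (a c : ℝ) (h1 : 0 < m → m * c = 1 + a) :
    SDR_J (m + 1) * SDR_B m a c = 0 := by
  ext i k
  have hm : 0 < m := by
    rcases Nat.eq_zero_or_pos m with h | h
    · subst h; exact k.elim0
    · exact h
  have h2 : (m : ℂ) * c = 1 + a := by exact_mod_cast congrArg (fun x : ℝ => (x : ℂ)) (h1 hm)
  simp only [SDR_J, Matrix.mul_apply, one_mul, Fin.sum_univ_succ, SDR_B0, SDR_Bs,
    Finset.sum_sub_distrib, Finset.sum_ite_eq', Finset.mem_univ, if_true, Finset.sum_const,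
    Finset.card_univ, Fintype.card_fin, nsmul_eq_mul, Matrix.zero_apply, h2]
  ring

private theorem SDR_BB (m : ℕ) (a c : ℝ) (h1 : 0 < m → m * c = 1 + a)
    (h2 : 0 < m → a ^ 2 - 2 * c + m * c ^ 2 = 0) :
    (SDR_B m a c).conjTranspose * SDR_B m a c = 1 := by
  ext k l
  have hm : 0 < m := by
    rcases Nat.eq_zero_or_pos m with h | h
    · subst h; exact k.elim0
    · exact h
  have h4 : (a : ℂ) ^ 2 - 2 * c + m * c ^ 2 = 0 := by
    exact_mod_cast congrArg (fun x : ℝ => (x : ℂ)) (h2 hm)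
  have h5 (x : ℝ) : star (x : ℂ) = x := Complex.conj_ofReal x
  simp only [Matrix.mul_apply, Matrix.conjTranspose_apply, Fin.sum_univ_succ, SDR_B0, SDR_Bs,
    h5, star_sub]
  have h6 : ∀ j : Fin m, (star (if j = k then (1 : ℂ) else 0) - (c : ℂ)) *
      ((if j = l then 1 else 0) - (c : ℂ)) = (if j = k then (if j = l then 1 else 0) else 0) -
        (c : ℂ) * (if j = k then 1 else 0) - c * (if j = l then 1 else 0) + c ^ 2 := by
    intro j
    split_ifs <;> simp <;> ring
  rw [Finset.sum_congr rfl fun j _ => h6 j]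
  simp only [Finset.sum_add_distrib, Finset.sum_sub_distrib, ← Finset.mul_sum,
    Finset.sum_ite_eq', Finset.mem_univ, if_true, Finset.sum_const,
    Finset.card_univ, Fintype.card_fin, nsmul_eq_mul, Matrix.one_apply]
  linear_combination h4

private theorem SDR_BBt (m : ℕ) (a c : ℝ) (h1 : 0 < m → m * c = 1 + a)
    (h2 : 0 < m → a ^ 2 - 2 * c + m * c ^ 2 = 0) (h3 : (m + 1) * a ^ 2 = 1) :
    SDR_B m a c * (SDR_B m a c).conjTranspose = 1 - ((a : ℂ) ^ 2) • SDR_J (m + 1) := by
  have h5 (x : ℝ) : star (x : ℂ) = x := Complex.conj_ofReal x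
  have h6 : ((m : ℂ) + 1) * a ^ 2 = 1 := by exact_mod_cast congrArg (fun x : ℝ => (x : ℂ)) h3
  ext i j
  refine Fin.cases (Fin.cases ?_ (fun j => ?_) j) (fun i => Fin.cases ?_ (fun j => ?_) j) i
  · simp only [Matrix.mul_apply, Matrix.conjTranspose_apply, SDR_B0, h5, Finset.sum_const,
      Finset.card_univ, Fintype.card_fin, nsmul_eq_mul, Matrix.sub_apply, Matrix.one_apply,
      if_true, Matrix.smul_apply, SDR_J, smul_eq_mul]
    linear_combination h6
  · have hm : 0 < m := by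
      rcases Nat.eq_zero_or_pos m with h | h
      · subst h; exact j.elim0
      · exact h
    have h7 : (m : ℂ) * c = 1 + a := by exact_mod_cast congrArg (fun x : ℝ => (x : ℂ)) (h1 hm)
    simp only [Matrix.mul_apply, Matrix.conjTranspose_apply, SDR_B0, SDR_Bs, h5, star_sub,
      Matrix.sub_apply, Matrix.one_apply, Matrix.smul_apply, SDR_J, smul_eq_mul,
      (Fin.succ_ne_zero j).symm, if_false]
    have h8 : ∀ k : Fin m, (a : ℂ) * (star (if j = k then (1 : ℂ) else 0) - (c : ℂ)) =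
        (a : ℂ) * (if j = k then 1 else 0) - a * c := by
      intro k
      split_ifs <;> simp <;> ring
    rw [Finset.sum_congr rfl fun j _ => h8 j]
    simp only [Finset.sum_sub_distrib, ← Finset.mul_sum,
      Finset.sum_ite_eq, Finset.mem_univ, if_true, Finset.sum_const,
      Finset.card_univ, Fintype.card_fin, nsmul_eq_mul]
    linear_combination -(a : ℂ) * h7
  · have hm : 0 < m := by
      rcases Nat.eq_zero_or_pos m with h | h
      · subst h; exact i.elim0
      · exact h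
    have h7 : (m : ℂ) * c = 1 + a := by exact_mod_cast congrArg (fun x : ℝ => (x : ℂ)) (h1 hm)
    simp only [Matrix.mul_apply, Matrix.conjTranspose_apply, SDR_B0, SDR_Bs, h5,
      Matrix.sub_apply, Matrix.one_apply, Matrix.smul_apply, SDR_J, smul_eq_mul,
      (Fin.succ_ne_zero i), if_false]
    have h8 : ∀ k : Fin m, ((if i = k then (1 : ℂ) else 0) - (c : ℂ)) * a =
        (a : ℂ) * (if i = k then 1 else 0) - a * c := by
      intro k
      split_ifs <;> ring
    rw [Finset.sum_congr rfl fun j _ => h8 j]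
    simp only [Finset.sum_sub_distrib, ← Finset.mul_sum,
      Finset.sum_ite_eq, Finset.mem_univ, if_true, Finset.sum_const,
      Finset.card_univ, Fintype.card_fin, nsmul_eq_mul]
    linear_combination -(a : ℂ) * h7
  · have hm : 0 < m := by
      rcases Nat.eq_zero_or_pos m with h | h
      · subst h; exact i.elim0
      · exact h
    have h4 : (a : ℂ) ^ 2 - 2 * c + m * c ^ 2 = 0 := by
      exact_mod_cast congrArg (fun x : ℝ => (x : ℂ)) (h2 hm)
    simp only [Matrix.mul_apply, Matrix.conjTranspose_apply, SDR_Bs, h5, star_sub,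
      Matrix.sub_apply, Matrix.one_apply, Matrix.smul_apply, SDR_J, smul_eq_mul,
      Fin.succ_inj]
    have h8 : ∀ k : Fin m, ((if i = k then (1 : ℂ) else 0) - (c : ℂ)) *
        (star (if j = k then (1 : ℂ) else 0) - (c : ℂ)) =
        (if i = k then (if j = k then 1 else 0) else 0) -
        (c : ℂ) * (if i = k then 1 else 0) - c * (if j = k then 1 else 0) + c ^ 2 := by
      intro k
      split_ifs <;> simp <;> ring
    rw [Finset.sum_congr rfl fun j _ => h8 j]
    simp only [Finset.sum_add_distrib, Finset.sum_sub_distrib, ← Finset.mul_sum,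
      Finset.sum_ite_eq, Finset.mem_univ, if_true, Finset.sum_const,
      Finset.card_univ, Fintype.card_fin, nsmul_eq_mul]
    have h9 : (if j = i then (1 : ℂ) else 0) = if i = j then 1 else 0 := by
      simp only [eq_comm]
    rw [h9]
    linear_combination h4

private theorem SDR_ac (m : ℕ) : ∃ a c : ℝ, (0 < m → m * c = 1 + a) ∧
    (0 < m → a ^ 2 - 2 * c + m * c ^ 2 = 0) ∧ (m + 1) * a ^ 2 = 1 := by
  have h1 : (0 : ℝ) < (m : ℝ) + 1 := by positivity
  set a : ℝ := 1 / √((m : ℝ) + 1) with ha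
  have h3 : ((m : ℝ) + 1) * a ^ 2 = 1 := by
    rw [ha, div_pow, Real.sq_sqrt h1.le]
    field_simp
  refine ⟨a, (1 + a) / m, fun hm => ?_, fun hm => ?_, h3⟩
  · have hm' : (0 : ℝ) < m := by exact_mod_cast hm
    field_simp
  · have hm' : (0 : ℝ) < m := by exact_mod_cast hm
    field_simp
    linear_combination h3

theorem SDR : SDR_stmt := by
  intro N hN
  obtain ⟨m, rfl⟩ : ∃ m, N = m + 1 := ⟨N - 1, by omega⟩
  obtain ⟨a, c, h1, h2, h3⟩ := SDR_ac m
  set B := SDR_B m a c with hB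
  have hJB : SDR_J (m + 1) * B = 0 := SDR_JB m a c h1
  have hBB : B.conjTranspose * B = 1 := SDR_BB m a c h1 h2
  have hBt : B * B.conjTranspose = 1 - ((a : ℂ) ^ 2) • SDR_J (m + 1) := SDR_BBt m a c h1 h2 h3
  have hmul (π : Equiv.Perm (Fin (m + 1))) :
      B * (B.conjTranspose * SDR_P π * B) = SDR_P π * B := by
    rw [← Matrix.mul_assoc, ← Matrix.mul_assoc, hBt, Matrix.sub_mul, Matrix.one_mul,
      Matrix.smul_mul, SDR_JP, Matrix.sub_mul, Matrix.smul_mul, hJB, smul_zero, sub_zero]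
  have hmul2 (π ρ : Equiv.Perm (Fin (m + 1))) :
      (B.conjTranspose * SDR_P π * B) * (B.conjTranspose * SDR_P ρ * B) =
        B.conjTranspose * SDR_P (π * ρ) * B := by
    rw [Matrix.mul_assoc _ B, hmul, SDR_Pmul]
    simp only [Matrix.mul_assoc]
  have hone : B.conjTranspose * SDR_P (1 : Equiv.Perm (Fin (m + 1))) * B = 1 := by
    rw [SDR_Pone, Matrix.mul_one, hBB]
  have hstar (π : Equiv.Perm (Fin (m + 1))) :
      star (B.conjTranspose * SDR_P π * B) = B.conjTranspose * SDR_P π⁻¹ * B := by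
    rw [Matrix.star_eq_conjTranspose, Matrix.conjTranspose_mul, Matrix.conjTranspose_mul,
      Matrix.conjTranspose_conjTranspose, SDR_Pstar, Matrix.mul_assoc]
  have hmem (π : Equiv.Perm (Fin (m + 1))) :
      B.conjTranspose * SDR_P π * B ∈ Matrix.unitaryGroup (Fin m) ℂ := by
    rw [Matrix.mem_unitaryGroup_iff, hstar, hmul2, mul_inv_cancel, hone]
  let Φ : Equiv.Perm (Fin (m + 1)) →* Matrix.unitaryGroup (Fin m) ℂ :=
    { toFun := fun π => ⟨B.conjTranspose * SDR_P π * B, hmem π⟩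
      map_one' := Subtype.ext hone
      map_mul' := fun π ρ => Subtype.ext (hmul2 π ρ).symm }
  have hΦ (π : Equiv.Perm (Fin (m + 1))) : (Φ π : Matrix (Fin m) (Fin m) ℂ) =
      B.conjTranspose * SDR_P π * B := rfl
  have htr (π : Equiv.Perm (Fin (m + 1))) :
      Matrix.trace (Φ π : Matrix (Fin m) (Fin m) ℂ) = (fx π : ℂ) - 1 := by
    have h6 : ((m : ℂ) + 1) * a ^ 2 = 1 := by exact_mod_cast congrArg (fun x : ℝ => (x : ℂ)) h3
    rw [hΦ, Matrix.mul_assoc, Matrix.trace_mul_comm, Matrix.mul_assoc, hBt, Matrix.mul_sub,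
      Matrix.mul_one, Matrix.mul_smul, SDR_PJ, Matrix.trace_sub, Matrix.trace_smul]
    have h7 : Matrix.trace (SDR_P π) = (fx π : ℂ) := by
      simp only [Matrix.trace, Matrix.diag_apply, SDR_P, fx]
      rw [Finset.sum_boole]
      congr 2
      ext i
      simp [eq_comm]
    have h8 : Matrix.trace (SDR_J (m + 1)) = (m : ℂ) + 1 := by
      simp [Matrix.trace, SDR_J]
    rw [h7, h8, smul_eq_mul]
    linear_combination -h6
  let T : EuclideanSpace ℂ (Fin m) →ₗ[ℂ] EuclideanSpace ℂ (Fin (m + 1)) := Matrix.toEuclideanLin B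
  have hT (u : EuclideanSpace ℂ (Fin m)) (i : Fin (m + 1)) : T u i = ∑ k, B i k * u k := rfl
  have hnorm (u : EuclideanSpace ℂ (Fin m)) : ‖T u‖ = ‖u‖ := by
    have h7 : ∀ {k : ℕ} (x : EuclideanSpace ℂ (Fin k)), ((‖x‖ ^ 2 : ℝ) : ℂ) =
        star (x.ofLp) ⬝ᵥ x.ofLp := by
      intro k x
      rw [EuclideanSpace.norm_sq_eq]
      push_cast
      simp only [dotProduct, Pi.star_apply]
      refine Finset.sum_congr rfl fun i _ => ?_
      rw [← Complex.ofReal_pow, ← Complex.normSq_eq_norm_sq]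
      exact Complex.normSq_eq_conj_mul_self
    have h8 : ((‖T u‖ ^ 2 : ℝ) : ℂ) = ((‖u‖ ^ 2 : ℝ) : ℂ) := by
      rw [h7, h7]
      have h9 : (T u).ofLp = B.mulVec u.ofLp := rfl
      rw [h9, Matrix.star_mulVec, ← Matrix.dotProduct_mulVec, Matrix.mulVec_mulVec, hBB,
        Matrix.one_mulVec]
    have h9 : ‖T u‖ ^ 2 = ‖u‖ ^ 2 := by exact_mod_cast h8
    exact (sq_eq_sq₀ (norm_nonneg _) (norm_nonneg _)).1 h9
  let ι : EuclideanSpace ℂ (Fin m) →ₗᵢ[ℂ] EuclideanSpace ℂ (Fin (m + 1)) := ⟨T, hnorm⟩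
  have hι (u : EuclideanSpace ℂ (Fin m)) : (ι u).ofLp = B.mulVec u.ofLp := rfl
  have hJ (v : EuclideanSpace ℂ (Fin (m + 1))) (i : Fin (m + 1)) :
      (SDR_J (m + 1)).mulVec v.ofLp i = ∑ i, v i := by
    simp [Matrix.mulVec, dotProduct, SDR_J]
  refine ⟨Φ, @StdR.mk (m + 1) Φ htr ⟨ι, fun v hv => ?_, fun u => ?_, fun π u i => ?_⟩⟩
  · refine ⟨WithLp.toLp 2 (B.conjTranspose.mulVec v.ofLp), ?_⟩
    ext i
    have h7 : (ι (WithLp.toLp 2 (B.conjTranspose.mulVec v.ofLp))).ofLp =
        B.mulVec (B.conjTranspose.mulVec v.ofLp) := rfl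
    rw [h7, Matrix.mulVec_mulVec, hBt, Matrix.sub_mulVec, Matrix.one_mulVec, Matrix.smul_mulVec,
      Pi.sub_apply, Pi.smul_apply, hJ, hv, smul_zero, sub_zero]
  · rw [← hJ (ι u) 0, hι, Matrix.mulVec_mulVec, hJB, Matrix.zero_mulVec]
    rfl
  · have h7 : (ι (isoU m (Φ π) u)).ofLp =
        B.mulVec ((B.conjTranspose * SDR_P π * B).mulVec u.ofLp) := rfl
    have h8 : ι (isoU m (Φ π) u) i = (B.mulVec u.ofLp) (π⁻¹ i) := by
      rw [h7, Matrix.mulVec_mulVec, hmul, ← Matrix.mulVec_mulVec]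
      simp only [Matrix.mulVec, dotProduct, SDR_P]
      rw [Finset.sum_eq_single (π⁻¹ i)]
      · simp
      · intro b _ hb
        rw [if_neg, zero_mul]
        intro h
        exact hb (by rw [h]; simp)
      · simp
    exact h8

end Pool.Agent.QX
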