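import Pool.Agent.helper4.QX.SpecP

set_option autoImplicit false

open scoped MatrixGroups ContDiff Topology UpperHalfPlane
open UpperHalfPlane MeasureTheory ProbabilityTheory Filter Set Polynomial
open Pool.Agent.QU Pool.Agent.RP

namespace Pool.Agent.QX

section

variable {E : Type} [AddCommGroup E] [Module ℝ E] (B : E →ₗ[ℝ] E →ₗ[ℝ] ℝ)

private noncomputable def SPC_ps {d : ℕ} (e : Fin d → E) : EuclideanSpace ℝ (Fin d) →ₗ[ℝ] E where
  toFun v := ∑ i, v i • e i
  map_add' v w := by simp [add_smul, Finset.sum_add_distrib]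
  map_smul' c v := by simp [mul_smul, Finset.smul_sum]

private noncomputable def SPC_ph {d : ℕ} (e : Fin d → E) : E →ₗ[ℝ] EuclideanSpace ℝ (Fin d) where
  toFun y := WithLp.toLp 2 fun i => B y (e i)
  map_add' v w := by ext i; simp
  map_smul' c v := by ext i; simp

private theorem SPC_ps_apply {d : ℕ} (e : Fin d → E) (v : EuclideanSpace ℝ (Fin d)) :
    SPC_ps e v = ∑ i, v i • e i := rfl

private theorem SPC_ph_apply {d : ℕ} (e : Fin d → E) (y : E) (i : Fin d) :
    SPC_ph B e y i = B y (e i) := rfl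

private theorem SPC_null (hs : ∀ x y, B x y = B y x) (hp : ∀ x, 0 ≤ B x x) (z : E)
    (hz : B z z = 0) (w : E) : B z w = 0 := by
  have h1 : ∀ t : ℝ, 0 ≤ 2 * t * B z w + B w w := by
    intro t
    have h2 := hp (t • z + w)
    simp only [map_add, map_smul, LinearMap.add_apply, LinearMap.smul_apply, smul_eq_mul, hz,
      hs w z] at h2
    nlinarith
  by_contra h
  have h3 := h1 (-(B w w + 1) / (2 * B z w))
  have h4 : 2 * (-(B w w + 1) / (2 * B z w)) * B z w = -(B w w + 1) := by
    field_simp
  rw [h4] at h3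
  linarith

private theorem SPC_gs (hs : ∀ x y, B x y = B y x) (hp : ∀ x, 0 ≤ B x x) (s : List E) :
    ∃ (d : ℕ) (e : Fin d → E), (∀ i j, B (e i) (e j) = if i = j then 1 else 0) ∧
      ∀ y ∈ s, B (y - SPC_ps e (SPC_ph B e y)) (y - SPC_ps e (SPC_ph B e y)) = 0 := by
  induction s with
  | nil => exact ⟨0, Fin.elim0, fun i => i.elim0, by simp⟩
  | cons y s ih =>
    obtain ⟨d, e, he, hr⟩ := ih
    set z := y - SPC_ps e (SPC_ph B e y) with hz
    have hze (i : Fin d) : B z (e i) = 0 := by
      rw [hz, map_sub, LinearMap.sub_apply, SPC_ps_apply, map_sum, LinearMap.sum_apply]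
      simp [he, SPC_ph_apply]
    by_cases h0 : B z z = 0
    · exact ⟨d, e, he, fun w hw => by
        rcases List.mem_cons.1 hw with rfl | hw
        · exact h0
        · exact hr w hw⟩
    · have hpos : 0 < B z z := lt_of_le_of_ne (hp z) (Ne.symm h0)
      set t : ℝ := (√(B z z))⁻¹ with ht
      have htt : t * t * B z z = 1 := by
        rw [ht, ← mul_inv, Real.mul_self_sqrt hpos.le, inv_mul_cancel₀ h0]
      have hte (i : Fin d) : B (t • z) (e i) = 0 := by simp [hze]
      have key (w : E) : w - SPC_ps (Fin.cons (t • z) e : Fin (d + 1) → E)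
          (SPC_ph B (Fin.cons (t • z) e : Fin (d + 1) → E) w) =
          (w - SPC_ps e (SPC_ph B e w)) - B w (t • z) • (t • z) := by
        rw [SPC_ps_apply, Fin.sum_univ_succ, SPC_ps_apply]
        simp only [SPC_ph_apply, Fin.cons_zero, Fin.cons_succ]
        abel
      refine ⟨d + 1, Fin.cons (t • z) e, ?_, ?_⟩
      · intro i j
        refine Fin.cases (Fin.cases ?_ (fun j => ?_) j) (fun i => Fin.cases ?_ (fun j => ?_) j) i
        · simp only [Fin.cons_zero, if_true, map_smul, LinearMap.smul_apply, smul_eq_mul]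
          linarith
        · simp only [Fin.cons_zero, Fin.cons_succ, (Fin.succ_ne_zero j).symm, if_false, hte]
        · simp only [Fin.cons_zero, Fin.cons_succ, (Fin.succ_ne_zero i), if_false]
          rw [hs, hte]
        · simp only [Fin.cons_succ, Fin.succ_inj, he]
      · intro w hw
        rw [key]
        rcases List.mem_cons.1 hw with rfl | hw
        · have h5 : B w (t • z) = t * B z z := by
            rw [map_smul, smul_eq_mul]
            congr 1
            have h6 : w = z + SPC_ps e (SPC_ph B e w) := by rw [hz]; abel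
            conv_lhs => rw [h6]
            rw [map_add, LinearMap.add_apply, SPC_ps_apply, map_sum, LinearMap.sum_apply]
            have h7 : ∑ i, B ((SPC_ph B e w) i • e i) z = 0 :=
              Finset.sum_eq_zero fun i _ => by
                rw [map_smul, LinearMap.smul_apply, hs, hze, smul_zero]
            rw [h7, add_zero]
          rw [← hz, h5]
          have h8 : z - (t * B z z) • t • z = 0 := by
            rw [smul_smul]
            have h9 : t * B z z * t = 1 := by linarith
            rw [h9, one_smul, sub_self]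
          rw [h8]
          simp
        · have h5 := hr w hw
          have h6 := SPC_null B hs hp _ h5
          have h7 : B w (t • z) = 0 := by
            have h8 := h6 (t • z)
            rw [map_sub, LinearMap.sub_apply, SPC_ps_apply, map_sum, LinearMap.sum_apply] at h8
            have h9 : ∑ i, B ((SPC_ph B e w) i • e i) (t • z) = 0 :=
              Finset.sum_eq_zero fun i _ => by
                rw [hs, map_smul, hte, smul_zero]
            rw [h9, sub_zero] at h8
            exact h8
          rw [h7, zero_smul, sub_zero]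
          exact h5

end

theorem SPC (h1 : SP1_stmt) : SPC_stmt := by
  intro E _ _ B A hs hp hA hc p M hM hpM x
  obtain ⟨d, e, he, hr⟩ := SPC_gs B hs hp ((List.range (p.natDegree + 1)).map fun i => (A ^ i) x)
  set ps := SPC_ps e with hps
  set ph := SPC_ph B e with hph
  have f1 (v : EuclideanSpace ℝ (Fin d)) : ph (ps v) = v := by
    ext i
    rw [hph, SPC_ph_apply, hps, SPC_ps_apply, map_sum, LinearMap.sum_apply]
    simp [he]
  have f2 (y : E) (v : EuclideanSpace ℝ (Fin d)) : inner ℝ (ph y) v = B y (ps v) := by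
    rw [PiLp.inner_apply, hps, SPC_ps_apply, map_sum]
    refine Finset.sum_congr rfl fun i _ => ?_
    rw [hph, SPC_ph_apply, map_smul, smul_eq_mul]
    simp
  have f3 (v : EuclideanSpace ℝ (Fin d)) : B (ps v) (ps v) = ‖v‖ ^ 2 := by
    rw [← f2, f1, real_inner_self_eq_norm_sq]
  have f4 (y : E) : B (y - ps (ph y)) (y - ps (ph y)) = B y y - ‖ph y‖ ^ 2 := by
    rw [map_sub, map_sub, LinearMap.sub_apply, LinearMap.sub_apply, f3, hs (ps (ph y)) y, ← f2,
      real_inner_self_eq_norm_sq]
    ring
  have f5 (y : E) : ‖ph y‖ ^ 2 ≤ B y y := by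
    have := hp (y - ps (ph y))
    rw [f4] at this
    linarith
  have hB2 (y z : E) (hz : B z z = 0) : B z y = 0 := SPC_null B hs hp z hz y
  set AQ : EuclideanSpace ℝ (Fin d) →ₗ[ℝ] EuclideanSpace ℝ (Fin d) := ph ∘ₗ A ∘ₗ ps with hAQ
  have hAQa (v : EuclideanSpace ℝ (Fin d)) : AQ v = ph (A (ps v)) := rfl
  have g1 : AQ.IsSymmetric := by
    intro v w
    rw [hAQa, hAQa, f2, real_inner_comm, f2, hA, hs]
  have g2 (v : EuclideanSpace ℝ (Fin d)) : ‖AQ v‖ ≤ ‖v‖ := by
    have h2 : ‖AQ v‖ ^ 2 ≤ ‖v‖ ^ 2 := by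
      rw [hAQa, ← f3 v]
      exact (f5 _).trans (hc _)
    exact (pow_le_pow_iff_left₀ (norm_nonneg _) (norm_nonneg _) (by norm_num)).1 h2
  have g3 (y : E) (hy : B (y - ps (ph y)) (y - ps (ph y)) = 0) : AQ (ph y) = ph (A y) := by
    rw [hAQa, ← sub_eq_zero, ← map_sub, ← map_sub]
    ext i
    rw [hph, SPC_ph_apply, hA]
    have h3 := hB2 (A (e i)) _ hy
    have h4 : ps (ph y) - y = -(y - ps (ph y)) := by abel
    rw [h4, map_neg, LinearMap.neg_apply, h3]
    simp
  have hmem (i : ℕ) (hi : i ≤ p.natDegree) :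
      B ((A ^ i) x - ps (ph ((A ^ i) x))) ((A ^ i) x - ps (ph ((A ^ i) x))) = 0 :=
    hr _ (List.mem_map.2 ⟨i, List.mem_range.2 (by omega), rfl⟩)
  have g4 (i : ℕ) (hi : i ≤ p.natDegree) : (AQ ^ i) (ph x) = ph ((A ^ i) x) := by
    induction i with
    | zero => simp
    | succ i ih =>
      rw [pow_succ', Module.End.mul_apply, ih (by omega), g3 _ (hmem i (by omega)), pow_succ',
        Module.End.mul_apply]
  have g5 : aeval AQ p (ph x) = ph (aeval A p x) := by
    rw [aeval_eq_sum_range, aeval_eq_sum_range, LinearMap.sum_apply, LinearMap.sum_apply, map_sum]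
    refine Finset.sum_congr rfl fun i hi => ?_
    rw [Finset.mem_range] at hi
    rw [LinearMap.smul_apply, LinearMap.smul_apply, map_smul, g4 i (by omega)]
  have g6 : B (aeval A p x - ps (ph (aeval A p x))) (aeval A p x - ps (ph (aeval A p x))) = 0 := by
    have h3 (y : E) : B (aeval A p x - ps (ph (aeval A p x))) y = 0 := by
      rw [aeval_eq_sum_range, LinearMap.sum_apply, map_sum, map_sum, ← Finset.sum_sub_distrib,
        map_sum, LinearMap.sum_apply]
      refine Finset.sum_eq_zero fun i hi => ?_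
      rw [Finset.mem_range] at hi
      rw [LinearMap.smul_apply, map_smul, map_smul, ← smul_sub, map_smul, LinearMap.smul_apply,
        hB2 y _ (hmem i (by omega)), smul_zero]
    exact h3 _
  have g7 := h1 (EuclideanSpace ℝ (Fin d)) AQ g1 g2 p M hM hpM (ph x)
  rw [f4] at g6
  have g8 : B (aeval A p x) (aeval A p x) = ‖ph (aeval A p x)‖ ^ 2 := by linarith
  rw [g8, ← g5]
  calc ‖aeval AQ p (ph x)‖ ^ 2 ≤ (M * ‖ph x‖) ^ 2 := pow_le_pow_left₀ (norm_nonneg _) g7 2
    _ = M ^ 2 * ‖ph x‖ ^ 2 := by ring
    _ ≤ M ^ 2 * B x x := mul_le_mul_of_nonneg_left (f5 x) (by positivity)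

end Pool.Agent.QX
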